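import Pool.Agent.H586.AF.D

/-!
# AG-LIE: the Lie algebra of a closed subgroup of the unitary group (helper738)
-/

set_option autoImplicit false
set_option linter.unusedVariables false

open MeasureTheory Matrix Finset Filter Topology
open scoped Matrix.Norms.Frobenius

namespace Pool.Agent.H738.AG

open Pool.Agent.H586.AF.GG

noncomputable section

variable {N : ℕ} {G : Subgroup (UU N)}

/-! ### The norm -/

theorem nsq (A : Mt N) : ‖A‖ ^ 2 = ip A A := by
  rw [frobenius_norm_def, ip, trace, ← Real.sqrt_eq_rpow, Real.sq_sqrt (by positivity)]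
  simp only [diag_apply, mul_apply, conjTranspose_apply, Complex.re_sum]
  rw [Finset.sum_comm]
  refine sum_congr rfl fun j _ => sum_congr rfl fun i _ => ?_
  rw [Real.rpow_two, ← Complex.normSq_eq_norm_sq, Complex.normSq_apply, Complex.star_def,
    Complex.mul_re, Complex.conj_re, Complex.conj_im]
  ring

theorem norm_eq_of_ip {A B : Mt N} (h : ip A A = ip B B) : ‖A‖ = ‖B‖ := by
  rw [← nsq, ← nsq] at h
  exact (sq_eq_sq₀ (norm_nonneg _) (norm_nonneg _)).1 h

theorem norm_mul_left {U : Mt N} (hU : U ∈ unitaryGroup (Fin N) ℂ) (A : Mt N) :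
    ‖U * A‖ = ‖A‖ := by
  apply norm_eq_of_ip
  have h : Uᴴ * U = 1 := mem_unitaryGroup_iff'.1 hU
  rw [ip, ip, conjTranspose_mul, Matrix.mul_assoc, ← Matrix.mul_assoc Uᴴ, h, Matrix.one_mul]

theorem norm_mul_right {U : Mt N} (hU : U ∈ unitaryGroup (Fin N) ℂ) (A : Mt N) :
    ‖A * U‖ = ‖A‖ := by
  apply norm_eq_of_ip
  have h : U * Uᴴ = 1 := mem_unitaryGroup_iff.1 hU
  rw [ip, ip, conjTranspose_mul, Matrix.mul_assoc, trace_mul_comm, Matrix.mul_assoc,
    Matrix.mul_assoc, h, Matrix.mul_one]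

theorem pow_sub_le {A B : Mt N} (hA : A ∈ unitaryGroup (Fin N) ℂ)
    (hB : B ∈ unitaryGroup (Fin N) ℂ) (k : ℕ) : ‖A ^ k - B ^ k‖ ≤ k * ‖A - B‖ := by
  induction k with
  | zero => simp
  | succ k ih =>
    have e : A ^ (k + 1) - B ^ (k + 1) = A ^ k * (A - B) + (A ^ k - B ^ k) * B := by
      rw [pow_succ, pow_succ, mul_sub, sub_mul]
      abel
    rw [e]
    refine (norm_add_le _ _).trans ?_
    rw [norm_mul_left (pow_mem hA k), norm_mul_right hB]
    push_cast
    linarith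

/-! ### The group -/

theorem mt_mem (g : G) : mt g ∈ unitaryGroup (Fin N) ℂ := (g : UU N).2

theorem mt_mul (g h : G) : mt (g * h) = mt g * mt h := rfl

theorem mt_one : mt (1 : G) = 1 := rfl

theorem mt_inv (g : G) : mt g⁻¹ = (mt g)ᴴ := rfl

theorem mt_pow (g : G) (k : ℕ) : mt (g ^ k) = mt g ^ k := by
  induction k with
  | zero => rw [pow_zero, pow_zero, mt_one]
  | succ k ih => rw [pow_succ, pow_succ, mt_mul, ih]

theorem closed_lim (hG : IsClosed (G : Set (UU N))) {h : ℕ → G} {A : Mt N}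
    (hA : Tendsto (fun n => mt (h n)) atTop (𝓝 A)) : ∃ g : G, mt g = A := by
  have h1 : A ∈ unitaryGroup (Fin N) ℂ := by
    rw [mem_unitaryGroup_iff]
    have h2 : Tendsto (fun n => mt (h n) * star (mt (h n))) atTop (𝓝 (A * star A)) :=
      hA.mul (hA.star)
    have h3 : (fun n => mt (h n) * star (mt (h n))) = fun _ => (1 : Mt N) :=
      funext fun n => mem_unitaryGroup_iff.1 (mt_mem (h n))
    rw [h3] at h2
    exact (tendsto_nhds_unique h2 tendsto_const_nhds)
  have h2 : Tendsto (fun n => ((h n : G) : UU N)) atTop (𝓝 (⟨A, h1⟩ : UU N)) :=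
    tendsto_subtype_rng.2 hA
  have h3 : (⟨A, h1⟩ : UU N) ∈ (G : Set (UU N)) :=
    hG.mem_of_tendsto h2 (Eventually.of_forall fun n => (h n).2)
  exact ⟨⟨⟨A, h1⟩, h3⟩, rfl⟩

theorem ex_star {X : Mt N} (hX : Xᴴ = -X) (t : ℝ) :
    (NormedSpace.exp (t • X))ᴴ = NormedSpace.exp (-(t • X)) := by
  rw [← Matrix.exp_conjTranspose, conjTranspose_smul, hX, star_trivial, smul_neg]

theorem ex_unit {X : Mt N} (hX : Xᴴ = -X) (t : ℝ) :
    NormedSpace.exp (t • X) ∈ unitaryGroup (Fin N) ℂ := by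
  have h := Matrix.exp_add_of_commute (t • X) (-(t • X)) ((Commute.refl (t • X)).neg_right)
  rw [add_neg_cancel, NormedSpace.exp_zero] at h
  rw [mem_unitaryGroup_iff, star_eq_conjTranspose, ex_star hX, ← h]

theorem ex_deriv (X : Mt N) : HasDerivAt (fun t : ℝ => NormedSpace.exp (t • X)) X 0 := by
  have h := hasDerivAt_exp_smul_const (𝕂 := ℝ) X 0
  rw [zero_smul, NormedSpace.exp_zero, one_mul] at h
  exact h

theorem lim_of_deriv {f : ℝ → Mt N} {Z : Mt N} (hf : HasDerivAt f Z 0) {r : ℕ → ℝ}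
    (hr : ∀ n, 0 < r n) (hr0 : Tendsto r atTop (𝓝 0)) :
    Tendsto (fun n => (r n)⁻¹ • (f (r n) - f 0)) atTop (𝓝 Z) := by
  have h := hasDerivAt_iff_tendsto_slope_zero.1 hf
  have h1 : Tendsto r atTop (𝓝[≠] 0) :=
    tendsto_nhdsWithin_iff.2 ⟨hr0, Eventually.of_forall fun n => (hr n).ne'⟩
  have h2 := h.comp h1
  refine h2.congr fun n => ?_
  simp only [Function.comp, zero_add]

theorem skew_lim {U : ℕ → Mt N} (hU : ∀ n, U n ∈ unitaryGroup (Fin N) ℂ) {r : ℕ → ℝ}
    (hr : ∀ n, 0 < r n) (hr0 : Tendsto r atTop (𝓝 0)) {Z : Mt N}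
    (hZ : Tendsto (fun n => (r n)⁻¹ • (U n - 1)) atTop (𝓝 Z)) : Zᴴ = -Z := by
  set v : ℕ → Mt N := fun n => (r n)⁻¹ • (U n - 1) with hv
  have h1 : ∀ n, v n + (v n)ᴴ + r n • (v n * (v n)ᴴ) = 0 := by
    intro n
    have h2 : U n = 1 + r n • v n := by
      rw [hv]
      simp only
      rw [smul_smul, mul_inv_cancel₀ (hr n).ne', one_smul]
      abel
    have h3 : U n * (U n)ᴴ = 1 := mem_unitaryGroup_iff.1 (hU n)
    rw [h2, conjTranspose_add, conjTranspose_one, conjTranspose_smul, star_trivial] at h3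
    have h4 : (1 + r n • v n) * (1 + r n • (v n)ᴴ) =
        1 + r n • (v n + (v n)ᴴ + r n • (v n * (v n)ᴴ)) := by
      rw [Matrix.add_mul, Matrix.one_mul, Matrix.mul_add, Matrix.mul_one, Matrix.smul_mul,
        Matrix.mul_smul, smul_add, smul_add]
      abel
    rw [h4] at h3
    have h5 : r n • (v n + (v n)ᴴ + r n • (v n * (v n)ᴴ)) = 0 := by
      have := congrArg (fun z => z - 1) h3
      simpa using this
    rcases smul_eq_zero.1 h5 with h6 | h6
    · exact absurd h6 (hr n).ne'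
    · exact h6
  have h2 : Tendsto (fun n => v n + (v n)ᴴ + r n • (v n * (v n)ᴴ)) atTop
      (𝓝 (Z + Zᴴ + (0 : ℝ) • (Z * Zᴴ))) :=
    (hZ.add hZ.star).add (hr0.smul (hZ.mul hZ.star))
  have h3 : (fun n => v n + (v n)ᴴ + r n • (v n * (v n)ᴴ)) = fun _ => (0 : Mt N) := funext h1
  rw [h3, zero_smul, add_zero] at h2
  have h4 := tendsto_nhds_unique h2 tendsto_const_nhds
  rw [add_comm] at h4
  exact eq_neg_of_add_eq_zero_left h4

/-- the key lemma -/
theorem key (hG : IsClosed (G : Set (UU N))) (g : ℕ → G) {r : ℕ → ℝ} (hr : ∀ n, 0 < r n)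
    (hr0 : Tendsto r atTop (𝓝 0)) {Z : Mt N}
    (hZ : Tendsto (fun n => (r n)⁻¹ • (mt (g n) - 1)) atTop (𝓝 Z)) : Z ∈ Lie G := by
  have hs : Zᴴ = -Z := skew_lim (fun n => mt_mem (g n)) hr hr0 hZ
  have hpos : ∀ t : ℝ, 0 ≤ t → ∃ g : G, mt g = NormedSpace.exp (t • Z) := by
    intro t ht
    have h1 := lim_of_deriv (ex_deriv Z) hr hr0
    rw [zero_smul, NormedSpace.exp_zero] at h1
    have h2 : Tendsto (fun n => ‖(r n)⁻¹ • (mt (g n) - NormedSpace.exp (r n • Z))‖) atTop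
        (𝓝 0) := by
      have h3 := (hZ.sub h1).norm
      rw [sub_self, norm_zero] at h3
      refine h3.congr fun n => ?_
      rw [← smul_sub]
      congr 2
      abel
    have h4 : Tendsto (fun n => mt (g n) ^ ⌊t / r n⌋₊ -
        NormedSpace.exp (r n • Z) ^ ⌊t / r n⌋₊) atTop (𝓝 0) := by
      refine tendsto_zero_iff_norm_tendsto_zero.2 ?_
      have h5 := h2.const_mul t
      rw [mul_zero] at h5
      refine squeeze_zero (fun n => norm_nonneg _) (fun n => ?_) h5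
      refine (pow_sub_le (mt_mem (g n)) (ex_unit hs (r n)) _).trans ?_
      rw [norm_smul, norm_inv, Real.norm_of_nonneg (hr n).le, ← mul_assoc]
      refine mul_le_mul_of_nonneg_right ?_ (norm_nonneg _)
      rw [← div_eq_mul_inv]
      exact Nat.floor_le (div_nonneg ht (hr n).le)
    have h6 : Tendsto (fun n => (⌊t / r n⌋₊ : ℝ) * r n) atTop (𝓝 t) := by
      have h7 : Tendsto (fun n => t - r n) atTop (𝓝 t) := by
        have := (tendsto_const_nhds (x := t)).sub hr0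
        rwa [sub_zero] at this
      refine tendsto_of_tendsto_of_tendsto_of_le_of_le h7 tendsto_const_nhds (fun n => ?_)
        (fun n => ?_)
      · have h8 := Nat.lt_floor_add_one (t / r n)
        rw [div_lt_iff₀ (hr n)] at h8
        change t - r n ≤ (⌊t / r n⌋₊ : ℝ) * r n
        linarith
      · have h8 := Nat.floor_le (div_nonneg ht (hr n).le)
        rwa [le_div_iff₀ (hr n)] at h8
    have h9 : Tendsto (fun n => NormedSpace.exp (r n • Z) ^ ⌊t / r n⌋₊) atTop
        (𝓝 (NormedSpace.exp (t • Z))) := by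
      have h10 : Continuous fun s : ℝ => NormedSpace.exp (s • Z) :=
        NormedSpace.exp_continuous.comp (continuous_id.smul continuous_const)
      have h11 := (h10.tendsto t).comp h6
      refine h11.congr fun n => ?_
      simp only [Function.comp]
      rw [← Matrix.exp_nsmul, ← Nat.cast_smul_eq_nsmul ℝ, smul_smul]
    have h12 := h4.add h9
    rw [zero_add] at h12
    refine closed_lim hG (h := fun n => g n ^ ⌊t / r n⌋₊) (h12.congr fun n => ?_)
    rw [mt_pow]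
    abel
  intro t
  rcases le_total 0 t with ht | ht
  · exact hpos t ht
  · obtain ⟨h, hh⟩ := hpos (-t) (by linarith)
    refine ⟨h⁻¹, ?_⟩
    rw [mt_inv, hh, ex_star hs, neg_smul, neg_neg]

/-! ### The Lie algebra -/

theorem lie_skew {X : Mt N} (hX : X ∈ Lie G) : Xᴴ = -X := by
  have hr : ∀ n : ℕ, (0 : ℝ) < 1 / ((n : ℝ) + 1) := fun n => by positivity
  have hr0 : Tendsto (fun n : ℕ => (1 : ℝ) / ((n : ℝ) + 1)) atTop (𝓝 0) :=
    tendsto_one_div_add_atTop_nhds_zero_nat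
  have h1 := lim_of_deriv (ex_deriv X) hr hr0
  rw [zero_smul, NormedSpace.exp_zero] at h1
  refine skew_lim (U := fun n : ℕ => NormedSpace.exp ((1 / ((n : ℝ) + 1)) • X)) (fun n => ?_) hr
    hr0 h1
  obtain ⟨g, hg⟩ := hX (1 / ((n : ℝ) + 1))
  rw [← hg]
  exact mt_mem g

theorem lie_add (hG : IsClosed (G : Set (UU N))) {X Y : Mt N} (hX : X ∈ Lie G) (hY : Y ∈ Lie G) :
    X + Y ∈ Lie G := by
  choose γ hγ using hX
  choose η hη using hY
  have hr : ∀ n : ℕ, (0 : ℝ) < 1 / ((n : ℝ) + 1) := fun n => by positivity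
  have hr0 : Tendsto (fun n : ℕ => (1 : ℝ) / ((n : ℝ) + 1)) atTop (𝓝 0) :=
    tendsto_one_div_add_atTop_nhds_zero_nat
  have hd : HasDerivAt (fun t : ℝ => NormedSpace.exp (t • X) * NormedSpace.exp (t • Y)) (X + Y)
      0 := by
    have h := (ex_deriv X).mul (ex_deriv Y)
    rw [zero_smul, zero_smul, NormedSpace.exp_zero, mul_one, one_mul] at h
    exact h
  have h1 := lim_of_deriv hd hr hr0
  rw [zero_smul, zero_smul, NormedSpace.exp_zero, mul_one] at h1
  refine key hG (fun n : ℕ => γ (1 / ((n : ℝ) + 1)) * η (1 / ((n : ℝ) + 1))) hr hr0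
    (h1.congr fun n => ?_)
  rw [mt_mul, hγ, hη]

theorem lie_smul (c : ℝ) {X : Mt N} (hX : X ∈ Lie G) : c • X ∈ Lie G := by
  intro t
  obtain ⟨g, hg⟩ := hX (t * c)
  exact ⟨g, by rw [hg, smul_smul]⟩

theorem lie_zero : (0 : Mt N) ∈ Lie G := fun t => ⟨1, by
  rw [smul_zero, NormedSpace.exp_zero, mt_one]⟩

/-- the Lie algebra as a subspace -/
def LieS (hG : IsClosed (G : Set (UU N))) : Submodule ℝ (Mt N) where
  carrier := Lie G
  zero_mem' := lie_zero
  add_mem' := fun hX hY => lie_add hG hX hY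
  smul_mem' := fun c _ hX => lie_smul c hX

theorem lie_conj (g : G) {Y : Mt N} (hY : Y ∈ Lie G) : mt g * Y * (mt g)ᴴ ∈ Lie G := by
  intro t
  obtain ⟨h, hh⟩ := hY t
  refine ⟨g * h * g⁻¹, ?_⟩
  have e1 : mt g * (mt g)ᴴ = 1 := mem_unitaryGroup_iff.1 (mt_mem g)
  have e2 : (mt g)ᴴ * mt g = 1 := mem_unitaryGroup_iff'.1 (mt_mem g)
  have h1 := Matrix.exp_units_conj (⟨mt g, (mt g)ᴴ, e1, e2⟩ : (Mt N)ˣ) (t • Y)
  rw [mt_mul, mt_mul, mt_inv, hh]
  rw [Units.inv_mk] at h1
  rw [← h1]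
  congr 1
  change mt g * (t • Y) * (mt g)ᴴ = _
  rw [Matrix.mul_smul, Matrix.smul_mul]

theorem lie_closed (hG : IsClosed (G : Set (UU N))) : IsClosed (Lie G) :=
  (LieS hG).closed_of_finiteDimensional

theorem lie_bracket (hG : IsClosed (G : Set (UU N))) {X Y : Mt N} (hX : X ∈ Lie G)
    (hY : Y ∈ Lie G) : X * Y - Y * X ∈ Lie G := by
  have hs := lie_skew hX
  choose γ hγ using hX
  have hr : ∀ n : ℕ, (0 : ℝ) < 1 / ((n : ℝ) + 1) := fun n => by positivity
  have hr0 : Tendsto (fun n : ℕ => (1 : ℝ) / ((n : ℝ) + 1)) atTop (𝓝 0) :=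
    tendsto_one_div_add_atTop_nhds_zero_nat
  have hd : HasDerivAt (fun t : ℝ => NormedSpace.exp (t • X) * Y * NormedSpace.exp (t • (-X)))
      (X * Y - Y * X) 0 := by
    have h := ((ex_deriv X).mul_const Y).mul (ex_deriv (-X))
    rw [zero_smul, zero_smul, NormedSpace.exp_zero, mul_one, one_mul, mul_neg, ← sub_eq_add_neg]
      at h
    exact h
  have h1 := lim_of_deriv hd hr hr0
  rw [zero_smul, zero_smul, NormedSpace.exp_zero, mul_one, one_mul] at h1
  refine (lie_closed hG).mem_of_tendsto h1 (Eventually.of_forall fun n => ?_)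
  have e : NormedSpace.exp ((1 / ((n : ℝ) + 1)) • X) * Y *
      NormedSpace.exp ((1 / ((n : ℝ) + 1)) • (-X)) =
      mt (γ (1 / ((n : ℝ) + 1))) * Y * (mt (γ (1 / ((n : ℝ) + 1))))ᴴ := by
    rw [hγ, ex_star hs, smul_neg]
  rw [e]
  exact lie_smul _ ((LieS hG).sub_mem (lie_conj _ hY) hY)

/-! ### The basis -/

theorem ip_add_left (A B C : Mt N) : ip (A + B) C = ip A C + ip B C := by
  rw [ip, ip, ip, conjTranspose_add, Matrix.add_mul, trace_add, Complex.add_re]

theorem ip_add_right (A B C : Mt N) : ip A (B + C) = ip A B + ip A C := by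
  rw [ip, ip, ip, Matrix.mul_add, trace_add, Complex.add_re]

theorem ip_smul_left (c : ℝ) (A B : Mt N) : ip (c • A) B = c * ip A B := by
  rw [ip, ip, conjTranspose_smul, star_trivial, Matrix.smul_mul, trace_smul, Complex.smul_re,
    smul_eq_mul]

theorem ip_smul_right (c : ℝ) (A B : Mt N) : ip A (c • B) = c * ip A B := by
  rw [ip, ip, Matrix.mul_smul, trace_smul, Complex.smul_re, smul_eq_mul]

theorem ip_symm (A B : Mt N) : ip A B = ip B A := by
  have h : (Aᴴ * B)ᴴ = Bᴴ * A := by rw [conjTranspose_mul, conjTranspose_conjTranspose]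
  rw [ip, ip, ← h, trace_conjTranspose, Complex.star_def, Complex.conj_re]

/-- an orthonormal basis of a subspace for a positive definite form -/
theorem onb {V : Type} [AddCommGroup V] [Module ℝ V] [FiniteDimensional ℝ V]
    (b : V → V → ℝ) (hadd : ∀ x y z, b (x + y) z = b x z + b y z)
    (hsmul : ∀ (c : ℝ) x y, b (c • x) y = c * b x y) (hsymm : ∀ x y, b x y = b y x)
    (hnn : ∀ x, 0 ≤ b x x) (hdef : ∀ x, b x x = 0 → x = 0) (S : Submodule ℝ V) :
    ∃ (n : ℕ) (T : Fin n → V), (∀ a, T a ∈ S) ∧ (∀ a c, b (T a) (T c) = if a = c then 1 else 0) ∧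
      ∀ x ∈ S, x = ∑ a, b (T a) x • T a := by
  let core : InnerProductSpace.Core ℝ V :=
    { inner := fun x y => b x y
      conj_inner_symm := fun x y => hsymm y x
      re_inner_nonneg := fun x => hnn x
      add_left := hadd
      smul_left := fun x y r => hsmul r x y
      definite := hdef }
  let _ : NormedAddCommGroup V := core.toNormedAddCommGroup
  let _ : InnerProductSpace ℝ V := InnerProductSpace.ofCore core.toCore
  let B := stdOrthonormalBasis ℝ S
  refine ⟨Module.finrank ℝ S, fun a => (B a : V), fun a => (B a).2, fun a c => ?_, fun x hx => ?_⟩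
  · have h := orthonormal_iff_ite.1 B.orthonormal a c
    exact h
  · have h := B.sum_repr' ⟨x, hx⟩
    have h2 := congrArg (fun z : S => (z : V)) h
    simp only [Submodule.coe_sum, Submodule.coe_smul] at h2
    exact h2.symm

theorem ex_bas (hG : IsClosed (G : Set (UU N))) : ∃ (n : ℕ) (T : Fin n → Mt N), Bas G T := by
  obtain ⟨n, T, h1, h2, h3⟩ := onb (V := Mt N) ip ip_add_left ip_smul_left ip_symm
    (fun x => by rw [← nsq]; positivity) (fun x hx => by
      rw [← nsq] at hx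
      exact norm_eq_zero.1 (pow_eq_zero_iff (two_ne_zero)|>.1 hx)) (LieS hG)
  exact ⟨n, T, ⟨h1, h2, h3⟩⟩

/-! ### The distance to the Lie algebra -/

/-- the projection -/
def pj {n : ℕ} (T : Fin n → Mt N) : Mt N →ₗ[ℝ] Mt N where
  toFun w := ∑ a, ip (T a) w • T a
  map_add' x y := by
    rw [← sum_add_distrib]
    exact sum_congr rfl fun a _ => by rw [ip_add_right, add_smul]
  map_smul' c x := by
    rw [RingHom.id_apply, smul_sum]
    exact sum_congr rfl fun a _ => by rw [ip_smul_right, mul_smul]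

theorem pj_apply {n : ℕ} (T : Fin n → Mt N) (w : Mt N) : pj T w = ∑ a, ip (T a) w • T a := rfl

theorem pj_cont {n : ℕ} (T : Fin n → Mt N) : Continuous (pj T) :=
  (pj T).continuous_of_finiteDimensional

theorem pj_bound {n : ℕ} (T : Fin n → Mt N) :
    ∃ K : ℝ, 0 ≤ K ∧ ∀ w : Mt N, ‖pj T w‖ ≤ K * ‖w‖ := by
  obtain ⟨K, hK, h⟩ := SemilinearMapClass.bound_of_continuous (pj T) (pj_cont T)
  exact ⟨K, hK.le, h⟩

theorem exp_quad (N : ℕ) : ∃ C : ℝ, 0 ≤ C ∧ ∃ δ : ℝ, 0 < δ ∧ ∀ Y : Mt N, ‖Y‖ < δ →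
    ‖NormedSpace.exp Y - 1 - Y‖ ≤ C * ‖Y‖ ^ 2 := by
  have h := (NormedSpace.exp_hasFPowerSeriesAt_zero (𝕂 := ℝ) (𝔸 := Mt N)).isBigO_sub_partialSum_pow
    2
  obtain ⟨C, hC, hb⟩ := h.exists_nonneg
  obtain ⟨δ, hδ, hb2⟩ := Metric.eventually_nhds_iff.1 hb.bound
  refine ⟨C, hC, δ, hδ, fun Y hY => ?_⟩
  have h1 := hb2 (y := Y) (by rwa [dist_zero_right])
  rw [norm_pow, norm_norm, zero_add, FormalMultilinearSeries.partialSum, sum_range_succ,
    sum_range_succ, sum_range_zero, zero_add, NormedSpace.expSeries_apply_eq,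
    NormedSpace.expSeries_apply_eq] at h1
  simp only [Nat.factorial_zero, Nat.factorial_one, Nat.cast_one, inv_one, pow_zero, pow_one,
    one_smul] at h1
  rwa [← sub_sub] at h1

theorem near (hG : IsClosed (G : Set (UU N))) {n : ℕ} (T : Fin n → Mt N) (hT : Bas G T) :
    ∃ C : ℝ, ∀ g : G, ‖mt g - 1 - ∑ a, ip (T a) (mt g - 1) • T a‖ ≤ C * ‖mt g - 1‖ ^ 2 := by
  by_contra hcon
  push Not at hcon
  choose g hg using fun k : ℕ => hcon k
  obtain ⟨K, hK, hKb⟩ := pj_bound T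
  obtain ⟨C, hC, δ, hδ, hq⟩ := exp_quad N
  have hmem : ∀ x : Mt N, pj T x ∈ Lie G := fun x =>
    (LieS hG).sum_mem fun a _ => (LieS hG).smul_mem _ (hT.mem a)
  have hfix : ∀ x ∈ Lie G, pj T x = x := fun x hx => (hT.span x hx).symm
  obtain ⟨w, hw⟩ : ∃ w : ℕ → Mt N, ∀ k, w k = mt (g k) - 1 := ⟨fun k => mt (g k) - 1, fun k => rfl⟩
  obtain ⟨b, hbd⟩ : ∃ b : ℕ → Mt N, ∀ k, b k = w k - pj T (w k) :=
    ⟨fun k => w k - pj T (w k), fun k => rfl⟩
  have hb : ∀ k : ℕ, (k : ℝ) * ‖w k‖ ^ 2 < ‖b k‖ := by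
    intro k
    rw [hbd, pj_apply, hw]
    exact hg k
  have hb0 : ∀ k, 0 < ‖b k‖ := fun k => lt_of_le_of_lt (by positivity) (hb k)
  have hb1 : ∀ k, ‖b k‖ ≤ (1 + K) * ‖w k‖ := by
    intro k
    rw [hbd]
    refine (norm_sub_le _ _).trans ?_
    have := hKb (w k)
    linarith
  have hw0 : ∀ k, 0 < ‖w k‖ := by
    intro k
    rcases (norm_nonneg (w k)).eq_or_lt with h | h
    · have := hb1 k
      rw [← h, mul_zero] at this
      exact absurd (hb0 k) (not_lt.2 this)
    · exact h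
  have hwk : ∀ k : ℕ, (k : ℝ) * ‖w k‖ ≤ 1 + K := by
    intro k
    have h1 := (hb k).le.trans (hb1 k)
    rw [pow_two, ← mul_assoc] at h1
    exact le_of_mul_le_mul_right h1 (hw0 k)
  have hwt : Tendsto (fun k => ‖w k‖) atTop (𝓝 0) := by
    have h1 : Tendsto (fun k : ℕ => (1 + K) / (k : ℝ)) atTop (𝓝 0) :=
      tendsto_const_div_atTop_nhds_zero_nat _
    refine squeeze_zero' (Eventually.of_forall fun k => norm_nonneg _) ?_ h1
    filter_upwards [eventually_gt_atTop 0] with k hk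
    have hk' : (0 : ℝ) < k := by exact_mod_cast hk
    rw [le_div_iff₀ hk', mul_comm]
    exact hwk k
  have hbt : Tendsto (fun k => ‖b k‖) atTop (𝓝 0) := by
    have h1 := hwt.const_mul (1 + K)
    rw [mul_zero] at h1
    exact squeeze_zero (fun k => norm_nonneg _) hb1 h1
  -- the limit of the directions
  obtain ⟨Z, hZ, φ, hφ, hlim⟩ := (isCompact_sphere (0 : Mt N) 1).tendsto_subseq
    (x := fun k => (‖b k‖)⁻¹ • b k) (fun k => by
      rw [mem_sphere_zero_iff_norm, norm_smul, norm_inv, norm_norm, inv_mul_cancel₀ (hb0 k).ne'])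
  have hφt : Tendsto φ atTop atTop := hφ.tendsto_atTop
  -- the correction
  have hex : ∀ k, ∃ e : G, mt e = NormedSpace.exp (-(pj T (w k))) := by
    intro k
    obtain ⟨e, he⟩ := hmem (w k) (-1)
    exact ⟨e, by rw [he, neg_one_smul]⟩
  choose e he using hex
  have hest : ∀ᶠ k in atTop, ‖(‖b k‖)⁻¹ • (mt (g k * e k) - 1) - (‖b k‖)⁻¹ • b k‖ ≤
      (K + C * K ^ 2) / k := by
    have h1 := hwt.const_mul (K + 1)
    rw [mul_zero] at h1
    filter_upwards [h1.eventually_lt_const hδ, eventually_gt_atTop 0] with k hk hk0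
    have hk' : (0 : ℝ) < k := by exact_mod_cast hk0
    have ha : ‖pj T (w k)‖ ≤ K * ‖w k‖ := hKb _
    have ha2 : ‖-(pj T (w k))‖ < δ := by
      rw [norm_neg]
      refine lt_of_le_of_lt (ha.trans ?_) hk
      exact mul_le_mul_of_nonneg_right (by linarith) (norm_nonneg _)
    have h2 := hq _ ha2
    rw [norm_neg] at h2
    have h3 : mt (g k * e k) - 1 - b k = -(w k * pj T (w k)) +
        mt (g k) * (NormedSpace.exp (-(pj T (w k))) - 1 - -(pj T (w k))) := by
      have e1 : mt (g k) = 1 + w k := by rw [hw]; abel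
      rw [mt_mul, he, hbd, e1, mul_sub, mul_sub, mul_neg, mul_one, add_mul, add_mul, one_mul,
        one_mul]
      abel
    have h4 : ‖mt (g k * e k) - 1 - b k‖ ≤ (K + C * K ^ 2) * ‖w k‖ ^ 2 := by
      rw [h3]
      refine (norm_add_le _ _).trans ?_
      rw [norm_neg, norm_mul_left (mt_mem _)]
      have h5 : ‖w k * pj T (w k)‖ ≤ ‖w k‖ * (K * ‖w k‖) :=
        (norm_mul_le _ _).trans (mul_le_mul_of_nonneg_left ha (norm_nonneg _))
      have h6 : C * ‖pj T (w k)‖ ^ 2 ≤ C * (K * ‖w k‖) ^ 2 :=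
        mul_le_mul_of_nonneg_left (pow_le_pow_left₀ (norm_nonneg _) ha 2) hC
      calc _ ≤ ‖w k‖ * (K * ‖w k‖) + C * (K * ‖w k‖) ^ 2 := add_le_add h5 (h2.trans h6)
        _ = _ := by ring
    rw [← smul_sub, norm_smul, norm_inv, norm_norm, inv_mul_le_iff₀ (hb0 k)]
    refine h4.trans ?_
    have h7 : ‖w k‖ ^ 2 ≤ ‖b k‖ / k := by
      rw [le_div_iff₀ hk', mul_comm]
      exact (hb k).le
    calc (K + C * K ^ 2) * ‖w k‖ ^ 2 ≤ (K + C * K ^ 2) * (‖b k‖ / k) :=
          mul_le_mul_of_nonneg_left h7 (by positivity)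
      _ = _ := by ring
  have hdiff : Tendsto (fun k => (‖b k‖)⁻¹ • (mt (g k * e k) - 1) - (‖b k‖)⁻¹ • b k) atTop
      (𝓝 0) := by
    refine tendsto_zero_iff_norm_tendsto_zero.2 ?_
    exact squeeze_zero' (Eventually.of_forall fun k => norm_nonneg _) hest
      (tendsto_const_div_atTop_nhds_zero_nat _)
  have hsum := (hdiff.comp hφt).add hlim
  rw [zero_add] at hsum
  have hZL : Z ∈ Lie G := by
    refine key hG (fun k => g (φ k) * e (φ k)) (r := fun k => ‖b (φ k)‖) (fun k => hb0 _)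
      (hbt.comp hφt) (hsum.congr fun k => ?_)
    simp only [Function.comp]
    abel
  -- the limit is orthogonal to the Lie algebra
  have hP : Tendsto (fun k => pj T ((‖b (φ k)‖)⁻¹ • b (φ k))) atTop (𝓝 (pj T Z)) :=
    ((pj_cont T).tendsto Z).comp hlim
  have hP0 : (fun k => pj T ((‖b (φ k)‖)⁻¹ • b (φ k))) = fun _ => (0 : Mt N) := by
    funext k
    rw [map_smul, hbd, map_sub, hfix _ (hmem _), sub_self, smul_zero]
  rw [hP0, hfix Z hZL] at hP
  have hZ0 : Z = 0 := tendsto_nhds_unique hP tendsto_const_nhds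
  rw [mem_sphere_zero_iff_norm, hZ0, norm_zero] at hZ
  exact zero_ne_one hZ

/-- **Task AG-LIE** -/
theorem tlie : S_LIE := fun G hG => ⟨ex_bas hG, fun T hT =>
  ⟨fun a => lie_skew (hT.mem a), fun X hX => lie_skew hX, fun X hX Y hY => lie_bracket hG hX hY,
    near hG T hT⟩⟩

end

end Pool.Agent.H738.AG
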